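import Mathlib
import Pool.Agent.Work.MP_3bf421_lc_LU.BlockB
import Pool.Agent.Work.MP_3bf421_lc_LU.NumBFin

/-!
# Matroid secretary: matroids in which few sets of small rank cover the circuits through an element

The model is the one of the problem: only `n` is known in advance, the elements arrive in uniformly
random order, and at time `i` the rule sees the weights of the arrived elements and the independence
of sets of arrived elements.
-/

set_option autoImplicit false

namespace Pool.Agent.Results.MP_3bf421_lc.FewFlats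

open Finset

/-- For every element `e` and every `j ≥ 1` there are at most `K ^ j` sets of rank at most `q * j`
(all their independent subsets have at most `q * j` elements) such that every circuit with `j + 1`
elements that contains `e` lies in one of them. -/
def FewFlats {n : ℕ} (K q : ℕ) (M : Matroid (Fin n)) : Prop :=
  ∀ (e : Fin n) (j : ℕ), 1 ≤ j → ∃ F : Finset (Finset (Fin n)), F.card ≤ K ^ j ∧
    (∀ G ∈ F, ∀ I : Finset (Fin n), I ⊆ G → M.Indep (↑I : Set (Fin n)) → I.card ≤ q * j) ∧
    ∀ D : Finset (Fin n), M.IsCircuit (↑D : Set (Fin n)) → e ∈ D → D.card = j + 1 →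
      ∃ G ∈ F, D ⊆ G

theorem result (K q : ℕ) (hK : 1 ≤ K) (hq : 1 ≤ q) (n : ℕ) :
    ∃ m : ℕ, ∃ p : Fin m → ℝ, (∀ s, 0 ≤ p s) ∧ (∑ s, p s = 1) ∧
    ∃ D : Fin m → Fin n → (Fin n → ℝ) → (Set (Fin n) → Prop) → Bool,
      ∀ (M : Matroid (Fin n)) (w : Fin n → ℝ), M.E = Set.univ → (∀ e, 0 ≤ w e) →
        (∀ (s : Fin m) (σ : Equiv.Perm (Fin n)),
          M.Indep (σ '' {i | D s i (fun j => if j ≤ i then w (σ j) else 0)
              (fun S => M.Indep (σ '' (S ∩ Set.Iic i))) = true})) ∧
        (FewFlats K q M → ∀ I : Finset (Fin n), M.Indep (↑I : Set (Fin n)) →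
          (1 / (20 * q * K) : ℝ) * ∑ e ∈ I, w e ≤
            (∑ σ : Equiv.Perm (Fin n), ∑ s : Fin m, p s *
              ∑ i : Fin n, (if D s i (fun j => if j ≤ i then w (σ j) else 0)
                (fun S => M.Indep (σ '' (S ∩ Set.Iic i))) = true then w (σ i) else 0))
            / (n.factorial : ℝ)) := by
  classical
  rcases Nat.eq_zero_or_pos n with hn0 | hn0
  · subst hn0
    obtain ⟨m, p, hp0, hp1, D, hD⟩ := Work.MP_3bf421_lc_LU.rule_value 0 0
    refine ⟨m, p, hp0, hp1, D, fun M w hE hw => ?_⟩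
    obtain ⟨h1, h2⟩ := hD M w hE hw
    exact ⟨h1, fun _ => h2 _ (by positivity) fun κ _ _ e => e.elim0⟩
  · obtain ⟨T0, hT0, lam, hlam, hnum⟩ := Work.MP_3bf421_lc_LU.numB K q n hK hq hn0
    obtain ⟨m, p, hp0, hp1, D, hD⟩ := Work.MP_3bf421_lc_LU.rule_value n T0
    refine ⟨m, p, hp0, hp1, D, fun M w hE hw => ?_⟩
    obtain ⟨h1, h2⟩ := hD M w hE hw
    refine ⟨h1, fun hFF => h2 _ (by positivity) fun κ hκ _ e he => ?_⟩
    choose F hF1 hF2 hF3 using hFF e
    have hb := Work.MP_3bf421_lc_LU.blockB M hE κ hκ e he T0 K q hT0 hlam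
      (fun j => if hj : 1 ≤ j then F j hj else ∅)
      (fun j hj => by simp only [dif_pos hj]; exact hF1 j hj)
      (fun j hj G hG => by
        simp only [dif_pos hj] at hG
        exact hF2 j hj G hG)
      (fun D hD heD j hj hc => by
        simp only [dif_pos hj]
        exact hF3 j hj D hD heD hc)
    have ha := Work.MP_3bf421_lc_LU.acc_count M κ T0 hT0 e he hb
    refine le_trans ?_ ha
    exact mul_le_mul_of_nonneg_right hnum (Nat.cast_nonneg _)

end Pool.Agent.Results.MP_3bf421_lc.FewFlats
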