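import Mathlib
import Pool.Agent.Work.MP_3bf421_lc.Rule
import Pool.Agent.Work.MP_3bf421_lc.Bridge

/-!
# Matroid secretary: a constant-competitive rule for all graphic matroids, from the independence
oracle alone

The model is the one of the problem: only `n` is known in advance, the elements arrive in uniformly
random order, and at time `i` the rule sees the weights of the arrived elements and the independence
of sets of arrived elements. No graph is given.
-/

set_option autoImplicit false

namespace Pool.Agent.Results.MP_3bf421_lc.GraphicOracle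

/-- `F` is the edge set of a forest in the multigraph with vertex set `V`, edge set `E` and ends
`ends`: no edge of `F` is a loop, no two edges of `F` are parallel, and the simple graph formed by
the edges of `F` has no cycle. -/
def IsForest {V E : Type} (ends : E → Sym2 V) (F : Set E) : Prop :=
  (∀ e ∈ F, ¬ (ends e).IsDiag) ∧ Set.InjOn ends F ∧
    (SimpleGraph.fromEdgeSet (ends '' F)).IsAcyclic

/-- `M` is graphic: there is a multigraph whose edges are the elements of `M` and whose forests are
the independent sets of `M`. -/
def IsGraphic {n : ℕ} (M : Matroid (Fin n)) : Prop :=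
  ∃ (V : Type) (ends : Fin n → Sym2 V), ∀ F : Set (Fin n), M.Indep F ↔ IsForest ends F

open Pool.Agent.GMS in
open Classical in
/-- For every `n` there is a randomised online rule that sees only the arrived weights and
independence among the arrived elements, keeps an independent set on every matroid on `n` elements,
and collects in expectation at least `1 / 192` of the weight of any independent set on every
graphic matroid on `n` elements. -/
theorem result (n : ℕ) :
    ∃ m : ℕ, ∃ p : Fin m → ℝ, (∀ s, 0 ≤ p s) ∧ (∑ s, p s = 1) ∧
    ∃ D : Fin m → Fin n → (Fin n → ℝ) → (Set (Fin n) → Prop) → Bool,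
      ∀ (M : Matroid (Fin n)) (w : Fin n → ℝ), M.E = Set.univ → (∀ e, 0 ≤ w e) →
        (∀ (s : Fin m) (σ : Equiv.Perm (Fin n)),
          M.Indep (σ '' {i | D s i (fun j => if j ≤ i then w (σ j) else 0)
              (fun S => M.Indep (σ '' (S ∩ Set.Iic i))) = true})) ∧
        (IsGraphic M → ∀ I : Finset (Fin n), M.Indep (↑I : Set (Fin n)) →
          (1 / 192 : ℝ) * ∑ e ∈ I, w e ≤
            (∑ σ : Equiv.Perm (Fin n), ∑ s : Fin m, p s *
              ∑ i : Fin n, (if D s i (fun j => if j ≤ i then w (σ j) else 0)
                (fun S => M.Indep (σ '' (S ∩ Set.Iic i))) = true then w (σ i) else 0))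
            / (n.factorial : ℝ)) := by
  let eqv : Fin (Fintype.card (Seed n)) ≃ Seed n := (Fintype.equivFin (Seed n)).symm
  have hcard : (0 : ℝ) < Fintype.card (Seed n) := by
    exact_mod_cast (Fintype.card_pos : 0 < Fintype.card (Seed n))
  refine ⟨Fintype.card (Seed n), fun _ => 1 / (Fintype.card (Seed n) : ℝ), fun _ => by positivity,
    ?_, fun s i wt P => theD (eqv s) i wt P, ?_⟩
  · rw [Finset.sum_const, Finset.card_univ, Fintype.card_fin, nsmul_eq_mul]
    field_simp
  · intro M w _ hw
    refine ⟨fun s σ => theD_indep M w (eqv s) σ, ?_⟩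
    rintro ⟨V, ends, hM⟩ I hI
    obtain ⟨g, hg⟩ := exists_names ends
    have hrep : ∀ Z : Set (Fin n), M.Indep Z ↔ Ind g Z := fun Z => (hM Z).trans (hg Z)
    have hval := value g w hw I ((hrep _).1 hI)
    have hfac : (0 : ℝ) < n.factorial := by exact_mod_cast n.factorial_pos
    rw [le_div_iff₀ hfac]
    have hsum : ∀ σ : Equiv.Perm (Fin n),
        ∑ s : Fin (Fintype.card (Seed n)), (1 / (Fintype.card (Seed n) : ℝ)) *
          ∑ i : Fin n, (if theD (eqv s) i (fun j => if j ≤ i then w (σ j) else 0)
            (fun S => M.Indep (σ '' (S ∩ Set.Iic i))) = true then w (σ i) else 0)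
        = (1 / (Fintype.card (Seed n) : ℝ)) * ∑ s : Seed n, ∑ i : Fin n,
          (if accS s (g ∘ σ) (w ∘ σ) i then w (σ i) else 0) := by
      intro σ
      rw [← Finset.mul_sum]
      congr 1
      rw [← Equiv.sum_comp eqv]
      refine Finset.sum_congr rfl fun s _ => Finset.sum_congr rfl fun i _ => ?_
      have := theD_graphic hrep w (eqv s) σ i
      unfold seenW seenP at this
      simp only [this]
    rw [Finset.sum_congr rfl (fun σ _ => hsum σ), ← Finset.mul_sum]
    rw [div_mul_eq_mul_div, one_mul, div_mul_eq_mul_div, div_le_iff₀ (by norm_num : (0:ℝ) < 192),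
      one_div, mul_comm (_⁻¹) _, mul_right_comm, ← div_eq_mul_inv, le_div_iff₀ hcard]
    linarith
end Pool.Agent.Results.MP_3bf421_lc.GraphicOracle
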