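import Pool.Agent.Work.MP_3bf421_lc_SW.Main
import Pool.Agent.Work.MP_3bf421_lc_SW.Rigid

set_option autoImplicit false

/-!
MP_3bf421_lc, matroid secretary problem: one online rule, which sees only weights and labels of
the arrived elements, is `e r`-competitive, and `(r + o(1))`-competitive for large capacities, for
every matroid (or just family of sets) that lies between the degenerate and the orientable sets.
The generic rigidity matroids of all dimensions `D` are instances with `r = 2`, capacities `D`.
-/

namespace Pool.Agent.Results.MP_3bf421_lc.Sandwich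

open Finset

/-- `v` is the last label of the label set `s` in the order of the labels given by `π`. -/
def IsLast (π : ℕ → ℕ) (s : Finset ℕ) (v : ℕ) : Prop := v ∈ s ∧ ∀ u ∈ s, π u ≤ π v

open Classical in
/-- The family `Ind` of sets of elements `0, …, n - 1` with label sets `S e` and label capacities
`d v` contains every set `F` that is degenerate (for some order `π` of the labels every label `v`
is the last label of at most `d v` elements of `F`), and every member `I` of `Ind` is orientable
(its elements can be assigned to labels of theirs, at most `d v` elements to the label `v`). -/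
def Between {n : ℕ} (d : ℕ → ℕ) (S : Fin n → Finset ℕ) (Ind : Finset (Fin n) → Prop) : Prop :=
  (∀ F : Finset (Fin n), (∃ π : ℕ → ℕ, Function.Injective π ∧
    ∀ v, (F.filter (fun e => IsLast π (S e) v)).card ≤ d v) → Ind F) ∧
  (∀ I : Finset (Fin n), Ind I → ∃ φ : Fin n → ℕ, (∀ e ∈ I, φ e ∈ S e) ∧
    ∀ v, (I.filter (fun e => φ e = v)).card ≤ d v)

/-- Row of the rigidity matrix of the bar joining the vertices `a` and `b` of a framework with
vertex positions `p x` in dimension `D`. -/
def bar (D : ℕ) (p : ℕ → Fin D → ℝ) (a b : ℕ) : ℕ → Fin D → ℝ :=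
  fun x k => (if x = a then p a k - p b k else 0) + (if x = b then p b k - p a k else 0)

/-- Independence in the generic `D`-dimensional rigidity matroid of the graph whose edge `e` joins
`u e` and `v e`: the rows of the rigidity matrix are linearly independent for some placement
(equivalently for almost all placements). -/
def GenericIndep (D : ℕ) {n : ℕ} (u v : Fin n → ℕ) (F : Finset (Fin n)) : Prop :=
  ∃ p : ℕ → Fin D → ℝ, LinearIndependent ℝ (fun e : F => bar D p (u e) (v e))

theorem result :
    (∃ a : ℕ → ℝ, (∀ K, Real.exp (-1) ≤ a K) ∧ Filter.Tendsto a Filter.atTop (nhds 1) ∧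
      ∀ (r n : ℕ) (d : ℕ → ℕ),
        ∃ (m : ℕ) (p : Fin m → ℝ), (∀ s, 0 ≤ p s) ∧ (∑ s, p s = 1) ∧
          ∃ D : Fin m → Fin n → (Fin n → ℝ) → (Fin n → Finset ℕ) → Bool,
            ∀ (Ind : Finset (Fin n) → Prop) (S : Fin n → Finset ℕ) (w : Fin n → ℝ),
              (∀ e, (S e).Nonempty ∧ (S e).card ≤ r) → (∀ e, 0 ≤ w e) → Between d S Ind →
              (∀ (s : Fin m) (σ : Equiv.Perm (Fin n)),
                Ind ((univ.filter (fun i => D s i (fun j => if j ≤ i then w (σ j) else 0)
                  (fun j => if j ≤ i then S (σ j) else ∅) = true)).image σ)) ∧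
              ∀ K : ℕ, (∀ e, ∀ v ∈ S e, K ≤ d v) → ∀ I : Finset (Fin n), Ind I →
                a K / r * ∑ e ∈ I, w e ≤
                  (∑ σ : Equiv.Perm (Fin n), ∑ s : Fin m, p s *
                    ∑ i : Fin n, (if D s i (fun j => if j ≤ i then w (σ j) else 0)
                      (fun j => if j ≤ i then S (σ j) else ∅) = true then w (σ i) else 0))
                  / (n.factorial : ℝ)) ∧
    (∀ (D n : ℕ) (u v : Fin n → ℕ), (∀ e, u e ≠ v e) →
      (∀ e f, ({u e, v e} : Finset ℕ) = {u f, v f} → e = f) →
      Between (fun _ => D) (fun e => {u e, v e}) (GenericIndep D u v)) := by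
  classical
  constructor
  · refine ⟨Work.MP_3bf421_lc_SW.al, Work.MP_3bf421_lc_SW.le_al,
      Work.MP_3bf421_lc_SW.tendsto_al, ?_⟩
    intro r n d
    obtain ⟨m, p, hp0, hp1, D, hD⟩ := Work.MP_3bf421_lc_SW.sandwich r n d
    refine ⟨m, p, hp0, hp1, D, fun Ind S w hS hw hsand => ?_⟩
    obtain ⟨h1, h2⟩ := hD Ind S w hS hw hsand.1
    refine ⟨h1, fun K hK I hI => ?_⟩
    obtain ⟨φ, hφ1, hφ2⟩ := hsand.2 I hI
    refine le_trans ?_ (h2 I φ hφ1 hφ2)
    rw [div_mul_eq_mul_div]
    apply div_le_div_of_nonneg_right _ (Nat.cast_nonneg r)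
    rw [mul_sum]
    apply sum_le_sum
    intro e he
    exact mul_le_mul_of_nonneg_right
      (Work.MP_3bf421_lc_SW.al_mono (hK e (φ e) (hφ1 e he))) (hw e)
  · intro D n u v huv hs
    exact ⟨fun F hF => by
        obtain ⟨π, hπ, h⟩ := hF
        exact Work.MP_3bf421_lc_SW.rigid_deg D u v huv hs F π hπ h,
      fun I hI => Work.MP_3bf421_lc_SW.rigid_orient D u v I hI⟩

end Pool.Agent.Results.MP_3bf421_lc.Sandwich
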