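import Mathlib
import Pool.Agent.Work.MP_3bf421_lc_LU.CoreU
import Pool.Agent.Work.MP_3bf421_lc_LU.NumSmall
import Pool.Agent.Work.MP_3bf421_lc_FZ.TotFinal

/-!
# Matroid secretary: unions of matroids

The model is the one of the problem: only `n` is known in advance, the elements arrive in uniformly
random order, and at time `i` the rule sees the weights of the arrived elements and the independence
of sets of arrived elements.
-/

set_option autoImplicit false

namespace Pool.Agent.Results.MP_3bf421_lc.Unions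

open Finset

/-- `N` is the union of the matroids `Ms j`: its independent sets are the unions of independent
sets of the `Ms j`, one for each `j`. -/
def IsUnion {n l : ℕ} (Ms : Fin l → Matroid (Fin n)) (N : Matroid (Fin n)) : Prop :=
  ∀ I : Set (Fin n), N.Indep I ↔ ∃ J : Fin l → Set (Fin n), (∀ j, (Ms j).Indep (J j)) ∧
    I = ⋃ j, J j

open Classical in
/-- `N` is the union of a list of matroids in which each one occurs at least `k` times, where
`k ≥ δ log (R + 1)` and `R` is at least the rank of `N`. -/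
def MultUnion {n : ℕ} (δ : ℝ) (N : Matroid (Fin n)) : Prop :=
  ∃ (l k R : ℕ) (Ms : Fin l → Matroid (Fin n)), IsUnion Ms N ∧
    (∀ j, k ≤ (univ.filter (fun i => Ms i = Ms j)).card) ∧
    (∀ I : Finset (Fin n), N.Indep (↑I : Set (Fin n)) → I.card ≤ R) ∧
    δ * Real.log (R + 1) ≤ k

/-- There is a rule with ratio `c` on the matroids on `n` elements in the class `cls`. -/
private def Good (n : ℕ) (cls : Matroid (Fin n) → Prop) (c : ℝ) : Prop :=
  ∃ m : ℕ, ∃ p : Fin m → ℝ, (∀ s, 0 ≤ p s) ∧ (∑ s, p s = 1) ∧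
    ∃ D : Fin m → Fin n → (Fin n → ℝ) → (Set (Fin n) → Prop) → Bool,
      ∀ (M : Matroid (Fin n)) (w : Fin n → ℝ), M.E = Set.univ → (∀ e, 0 ≤ w e) →
        (∀ (s : Fin m) (σ : Equiv.Perm (Fin n)),
          M.Indep (σ '' {i | D s i (fun j => if j ≤ i then w (σ j) else 0)
              (fun S => M.Indep (σ '' (S ∩ Set.Iic i))) = true})) ∧
        (cls M → ∀ I : Finset (Fin n), M.Indep (↑I : Set (Fin n)) →
          c * ∑ e ∈ I, w e ≤
            (∑ σ : Equiv.Perm (Fin n), ∑ s : Fin m, p s *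
              ∑ i : Fin n, (if D s i (fun j => if j ≤ i then w (σ j) else 0)
                (fun S => M.Indep (σ '' (S ∩ Set.Iic i))) = true then w (σ i) else 0))
            / (n.factorial : ℝ))

private theorem good_zero (cls : Matroid (Fin 0) → Prop) {c : ℝ} (hc : 0 ≤ c) :
    Good 0 cls c := by
  obtain ⟨m, p, hp0, hp1, D, hD⟩ := Work.MP_3bf421_lc_LU.rule_value 0 0
  refine ⟨m, p, hp0, hp1, D, fun M w hE hw => ?_⟩
  obtain ⟨h1, h2⟩ := hD M w hE hw
  exact ⟨h1, fun _ => h2 _ hc fun κ _ _ e => e.elim0⟩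

/-- a matroid is the direct sum of itself -/
private theorem sigma_one {n : ℕ} (M : Matroid (Fin n))
    (h : Pairwise (Function.onFun Disjoint fun i : Fin 1 => ((fun _ : Fin 1 => M) i).E)) :
    M = Matroid.disjointSigma (fun _ : Fin 1 => M) h := by
  apply Matroid.ext_indep
  · rw [Matroid.disjointSigma_ground_eq]
    ext x
    simp
  · intro I hI
    rw [Matroid.disjointSigma_indep_iff]
    constructor
    · intro h1
      refine ⟨fun _ => ?_, ?_⟩
      · exact h1.subset Set.inter_subset_left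
      · exact hI.trans (Set.subset_iUnion (fun _ : Fin 1 => M.E) 0)
    · rintro ⟨h1, -⟩
      have h2 := h1 0
      rwa [Set.inter_eq_left.2 hI] at h2

private theorem good_of {n : ℕ} (T0 : ℕ) (hT0 : T0 < n) {c δ : ℝ} (hc : 0 ≤ c)
    (hmain : ∀ k R : ℕ, 1 ≤ R → δ * Real.log (R + 1) ≤ k →
      (n ≤ k ∧ c ≤ ((n - T0 : ℕ) : ℝ) / n) ∨
      ∃ T1 B : ℕ, ∃ lam θ : ℝ, T1 ≤ T0 ∧ 1 ≤ lam ∧ 0 ≤ θ ∧
        (∀ f j : ℕ, k * j ≤ f → Work.MP_3bf421_lc_LU.PB (T0 - T1) ((lam - 1) * f) (n - T1 - 1)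
          / lam ^ f ≤ θ ^ j) ∧
        c ≤ ((n - T0 : ℕ) : ℝ) / n *
          (1 - (R : ℝ) * ((n - 1 - T1 : ℕ) : ℝ) / (((T1 : ℝ) + 1) * ((B : ℝ) + 1))
            - ((1 + θ) ^ B - 1))) :
    Good n (MultUnion δ) c := by
  obtain ⟨m, p, hp0, hp1, D, hD⟩ := Work.MP_3bf421_lc_LU.rule_value n T0
  refine ⟨m, p, hp0, hp1, D, fun M w hE hw => ?_⟩
  obtain ⟨h1, h2⟩ := hD M w hE hw
  refine ⟨h1, fun hM => h2 _ hc fun κ hκ _ e he => ?_⟩
  have h : Pairwise (Function.onFun Disjoint fun i : Fin 1 => ((fun _ : Fin 1 => M) i).E) := by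
    intro i j hij
    exact absurd (Subsingleton.elim i j) hij
  have hMs := sigma_one M h
  have hE' : (Matroid.disjointSigma (fun _ : Fin 1 => M) h).E = Set.univ := by
    rw [← hMs]
    exact hE
  have he' : e ∈ Work.MP_3bf421_lc_LU.optB (Matroid.disjointSigma (fun _ : Fin 1 => M) h) κ := by
    rw [← hMs]
    exact he
  have h3 := Work.MP_3bf421_lc_LU.core_count (fun _ : Fin 1 => M) h hE' κ hκ T0 hT0 hmain
    (fun _ => by
      obtain ⟨l, k, R, Ms, a1, a2, a3, a4⟩ := hM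
      exact ⟨l, k, R, Ms, a1, a2, a3, a4⟩) e he'
  rw [← hMs] at h3
  exact h3

private theorem good_small (δ : ℝ) (hδ : 0 < δ) (n : ℕ) :
    Good n (MultUnion δ) (Work.MP_3bf421_lc_FZ.cc δ) := by
  obtain ⟨m, p, hp0, hp1, D, hD⟩ := Work.MP_3bf421_lc_FZ.union_rule hδ n
  refine ⟨m, p, hp0, hp1, D, fun M w hE hw => ?_⟩
  obtain ⟨h1, h2⟩ := hD M w hE hw
  refine ⟨h1, ?_⟩
  rintro ⟨l, k, R, Ms, a1, a2, a3, a4⟩
  exact h2 ⟨l, k, R, Ms, a1, a2, a3, a4⟩

private theorem good_large (ε : ℝ) (h0 : 0 < ε) (h1 : ε < 1 / 2) :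
    ∃ C : ℝ, ∀ δ : ℝ, C ≤ δ → ∀ n : ℕ,
      Good n (MultUnion δ) (1 - Real.exp (-1) - ε) := by
  have hexp : Real.exp (-1) ≤ 1 / 2 := by
    rw [Real.exp_neg]
    have h := Real.add_one_le_exp (1 : ℝ)
    rw [inv_le_comm₀ (Real.exp_pos 1) (by norm_num)]
    norm_num at h ⊢
    linarith
  obtain ⟨C, hC, hnum⟩ := Work.MP_3bf421_lc_LU.numA h0 h1
  refine ⟨C, fun δ hδ n => ?_⟩
  rcases Nat.eq_zero_or_pos n with hn | hn
  · subst hn
    exact good_zero _ (by linarith)
  · obtain ⟨T0, hT0, hval, hmain⟩ := hnum n hn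
    refine good_of T0 hT0 (by linarith) fun k R hR hk => ?_
    have hR' : (1 : ℝ) ≤ R := by exact_mod_cast hR
    have hlog : 0 ≤ Real.log ((R : ℝ) + 1) := Real.log_nonneg (by linarith)
    rcases hmain k R hR ((mul_le_mul_of_nonneg_right hδ hlog).trans hk) with h | h
    · exact Or.inl ⟨h, hval⟩
    · exact Or.inr h

theorem result : ∃ c : ℝ → ℝ, (∀ δ, 0 < δ → 1 / (10 ^ 10 * Real.log (2 + 1 / δ)) ≤ c δ) ∧
    Filter.Tendsto c Filter.atTop (nhds (1 - Real.exp (-1))) ∧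
    ∀ δ : ℝ, 0 < δ → ∀ n : ℕ,
    ∃ m : ℕ, ∃ p : Fin m → ℝ, (∀ s, 0 ≤ p s) ∧ (∑ s, p s = 1) ∧
    ∃ D : Fin m → Fin n → (Fin n → ℝ) → (Set (Fin n) → Prop) → Bool,
      ∀ (M : Matroid (Fin n)) (w : Fin n → ℝ), M.E = Set.univ → (∀ e, 0 ≤ w e) →
        (∀ (s : Fin m) (σ : Equiv.Perm (Fin n)),
          M.Indep (σ '' {i | D s i (fun j => if j ≤ i then w (σ j) else 0)
              (fun S => M.Indep (σ '' (S ∩ Set.Iic i))) = true})) ∧
        (MultUnion δ M → ∀ I : Finset (Fin n), M.Indep (↑I : Set (Fin n)) →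
          c δ * ∑ e ∈ I, w e ≤
            (∑ σ : Equiv.Perm (Fin n), ∑ s : Fin m, p s *
              ∑ i : Fin n, (if D s i (fun j => if j ≤ i then w (σ j) else 0)
                (fun S => M.Indep (σ '' (S ∩ Set.Iic i))) = true then w (σ i) else 0))
            / (n.factorial : ℝ)) := by
  classical
  have hexp : Real.exp (-1) ≤ 1 / 2 := by
    rw [Real.exp_neg]
    have h := Real.add_one_le_exp (1 : ℝ)
    rw [inv_le_comm₀ (Real.exp_pos 1) (by norm_num)]
    norm_num at h ⊢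
    linarith
  have hex : ∀ i : ℕ, ∃ C : ℝ, ∀ δ : ℝ, C ≤ δ → ∀ n : ℕ,
      Good n (MultUnion δ) (1 - Real.exp (-1) - 1 / ((i : ℝ) + 3)) := by
    intro i
    have hi : (0 : ℝ) ≤ i := Nat.cast_nonneg i
    refine good_large _ (by positivity) ?_
    rw [div_lt_div_iff₀ (by linarith) (by norm_num)]
    linarith
  choose C hC using hex
  set g : ℝ → ℕ := fun δ => Nat.findGreatest (fun i => C i ≤ δ) ⌊δ⌋₊ with hg
  refine ⟨fun δ => if C (g δ) ≤ δ then 1 - Real.exp (-1) - 1 / ((g δ : ℝ) + 3)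
    else Work.MP_3bf421_lc_FZ.cc δ, fun δ hδ => ?_, ?_, fun δ hδ n => ?_⟩
  · by_cases h : C (g δ) ≤ δ
    · simp only [if_pos h]
      have hlog2 : 0.6931471803 < Real.log 2 := Real.log_two_gt_d9
      have hδ' : 0 < 1 / δ := by positivity
      have h1 : Real.log 2 ≤ Real.log (2 + 1 / δ) := Real.log_le_log (by norm_num) (by linarith)
      have h3 : 1 / (10 ^ 10 * Real.log (2 + 1 / δ)) ≤ 1 / 6 := by
        apply one_div_le_one_div_of_le (by norm_num)
        nlinarith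
      have h2 : 1 / ((g δ : ℝ) + 3) ≤ 1 / 3 := by
        apply one_div_le_one_div_of_le (by norm_num)
        have : (0 : ℝ) ≤ g δ := Nat.cast_nonneg _
        linarith
      linarith
    · simp only [if_neg h]
      exact Work.MP_3bf421_lc_FZ.cc_ge hδ
  · rw [Metric.tendsto_atTop]
    intro ε hε
    obtain ⟨i, hi⟩ := exists_nat_one_div_lt hε
    refine ⟨max (C i) (i : ℝ), fun δ hδ => ?_⟩
    have hCi : C i ≤ δ := (le_max_left _ _).trans hδ
    have hiδ : (i : ℝ) ≤ δ := (le_max_right _ _).trans hδ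
    have hi' : i ≤ ⌊δ⌋₊ := Nat.le_floor hiδ
    have h1 : C (g δ) ≤ δ := Nat.findGreatest_spec (P := fun i => C i ≤ δ) hi' hCi
    have h2 : i ≤ g δ := Nat.le_findGreatest hi' hCi
    simp only [if_pos h1]
    rw [Real.dist_eq, sub_sub_cancel_left, abs_neg, abs_of_nonneg (by positivity)]
    refine lt_of_le_of_lt ?_ hi
    apply one_div_le_one_div_of_le (by positivity)
    have h3 : (i : ℝ) ≤ g δ := by exact_mod_cast h2
    linarith
  · have hgood : Good n (MultUnion δ) (if C (g δ) ≤ δ then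
        1 - Real.exp (-1) - 1 / ((g δ : ℝ) + 3) else Work.MP_3bf421_lc_FZ.cc δ) := by
      by_cases h : C (g δ) ≤ δ
      · rw [if_pos h]
        exact hC _ δ h n
      · rw [if_neg h]
        exact good_small δ hδ n
    exact hgood

end Pool.Agent.Results.MP_3bf421_lc.Unions
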